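import Mathlib
import Pool.Agent.H29.IC.MVG
import Pool.Agent.H70.APS.Targets

/-!
# Module S_MFI: the basic identity
-/

open MeasureTheory Set Filter Topology Metric
open scoped ENNReal NNReal ContDiff RealInnerProductSpace

namespace Pool.Agent.H65.APS

open Pool.Agent.H94.IC Pool.Agent.H94.AC Pool.Agent.H92.CK Pool.Agent.H65.AP Pool.Agent.H70.APS

theorem mf_gr_cmp (f : E → ℝ) (x : E) (k : Fin 3) : (gr f x) k = pd k f x := by
  unfold pd gr
  rw [← inner_gradient_left, EuclideanSpace.inner_single_right]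
  simp

theorem mf_inner (a b : E) : ⟪a, b⟫ = a 0 * b 0 + a 1 * b 1 + a 2 * b 2 := by
  rw [PiLp.inner_apply, Fin.sum_univ_three]
  simp only [RCLike.inner_apply, conj_trivial]
  ring

theorem mf_fd {A : E → E} {x : E} (h : DifferentiableAt ℝ A x) (k i : Fin 3) :
    (fderiv ℝ A x (ev k)) i = pd k (fun y => A y i) x := by
  have h1 : HasFDerivAt (fun y => A y i)
      ((EuclideanSpace.proj i : E →L[ℝ] ℝ).comp (fderiv ℝ A x)) x :=
    (EuclideanSpace.proj i : E →L[ℝ] ℝ).hasFDerivAt.comp x h.hasFDerivAt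
  unfold pd
  rw [h1.fderiv]
  rfl

theorem mf_pdm {κ f g : E → ℝ} {y : E} (hκ : DifferentiableAt ℝ κ y) (hf : DifferentiableAt ℝ f y)
    (hg : DifferentiableAt ℝ g y) (c d : ℝ) (i : Fin 3) :
    pd i (fun z => κ z * (f z * c - g z * d)) y
      = pd i κ y * (f y * c - g y * d) + κ y * (pd i f y * c - pd i g y * d) := by
  have h1 : HasFDerivAt (fun z => f z * c - g z * d) (c • fderiv ℝ f y - d • fderiv ℝ g y) y :=
    (hf.hasFDerivAt.mul_const c).sub (hg.hasFDerivAt.mul_const d)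
  have h2 := hκ.hasFDerivAt.mul h1
  unfold pd
  have h3 : HasFDerivAt (fun z => κ z * (f z * c - g z * d))
      (κ y • (c • fderiv ℝ f y - d • fderiv ℝ g y) + (f y * c - g y * d) • fderiv ℝ κ y) y := h2
  rw [h3.fderiv]
  simp
  ring

theorem mf_pd3 {κ f g e : E → ℝ} {y : E} (hκ : DifferentiableAt ℝ κ y) (hf : DifferentiableAt ℝ f y)
    (hg : DifferentiableAt ℝ g y) (he : DifferentiableAt ℝ e y) (a b c : ℝ) (i : Fin 3) :
    pd i (fun z => κ z * (f z * a + g z * b + e z * c)) y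
      = pd i κ y * (f y * a + g y * b + e y * c) + κ y * (pd i f y * a + pd i g y * b + pd i e y * c) := by
  have h1 : HasFDerivAt (fun z => f z * a + g z * b + e z * c)
      (a • fderiv ℝ f y + b • fderiv ℝ g y + c • fderiv ℝ e y) y :=
    ((hf.hasFDerivAt.mul_const a).add (hg.hasFDerivAt.mul_const b)).add (he.hasFDerivAt.mul_const c)
  have h2 := hκ.hasFDerivAt.mul h1
  unfold pd
  have h3 : HasFDerivAt (fun z => κ z * (f z * a + g z * b + e z * c))
      (κ y • (a • fderiv ℝ f y + b • fderiv ℝ g y + c • fderiv ℝ e y)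
        + (f y * a + g y * b + e y * c) • fderiv ℝ κ y) y := h2
  rw [h3.fderiv]
  simp
  ring

theorem pf_MFI : T_MFI := by
  intro κ q O w y hκ hO hq hy
  have hqa : ContDiffAt ℝ ∞ q y := hq.contDiffAt (hO.mem_nhds hy)
  have hκd : DifferentiableAt ℝ κ y := hκ.differentiable (by simp) y
  have hd : ∀ k, DifferentiableAt ℝ (pd k q) y := by
    intro k
    have h1 : ContDiffAt ℝ ∞ (fderiv ℝ q) y := hqa.fderiv_right (m := ∞) (by simp)
    have h2 : ContDiffAt ℝ ∞ (pd k q) y := h1.clm_apply contDiffAt_const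
    exact h2.differentiableAt (by simp)
  have hsym : ∀ j k, pd j (pd k q) y = pd k (pd j q) y := fun j k =>
    Pool.Agent.H29.IC.pd_comm (hqa.of_le (by norm_cast)) j k
  set F : E → E := fun z => κ z • cr (gr q z) w with hF
  have hF0 : (fun z => (F z) 0) = fun z => κ z * (pd 1 q z * w 2 - pd 2 q z * w 1) := by
    funext z
    show κ z * ((gr q z) 1 * w 2 - (gr q z) 2 * w 1) = _
    rw [mf_gr_cmp, mf_gr_cmp]
  have hF1 : (fun z => (F z) 1) = fun z => κ z * (pd 2 q z * w 0 - pd 0 q z * w 2) := by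
    funext z
    show κ z * ((gr q z) 2 * w 0 - (gr q z) 0 * w 2) = _
    rw [mf_gr_cmp, mf_gr_cmp]
  have hF2 : (fun z => (F z) 2) = fun z => κ z * (pd 0 q z * w 1 - pd 1 q z * w 0) := by
    funext z
    show κ z * ((gr q z) 0 * w 1 - (gr q z) 1 * w 0) = _
    rw [mf_gr_cmp, mf_gr_cmp]
  have hFd : DifferentiableAt ℝ F y := by
    rw [differentiableAt_euclidean]
    intro i
    fin_cases i
    · show DifferentiableAt ℝ (fun z => (F z) 0) y
      rw [hF0]
      exact hκd.mul (((hd 1).mul_const _).sub ((hd 2).mul_const _))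
    · show DifferentiableAt ℝ (fun z => (F z) 1) y
      rw [hF1]
      exact hκd.mul (((hd 2).mul_const _).sub ((hd 0).mul_const _))
    · show DifferentiableAt ℝ (fun z => (F z) 2) y
      rw [hF2]
      exact hκd.mul (((hd 0).mul_const _).sub ((hd 1).mul_const _))
  have hp : (fun z => κ z * ⟪gr q z, w⟫) = fun z => κ z * (pd 0 q z * w 0 + pd 1 q z * w 1 + pd 2 q z * w 2) := by
    funext z
    rw [mf_inner, mf_gr_cmp, mf_gr_cmp, mf_gr_cmp]
  have hgp : ∀ k, (gr (fun z => κ z * ⟪gr q z, w⟫) y) k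
      = pd k κ y * (pd 0 q y * w 0 + pd 1 q y * w 1 + pd 2 q y * w 2)
        + κ y * (pd k (pd 0 q) y * w 0 + pd k (pd 1 q) y * w 1 + pd k (pd 2 q) y * w 2) := by
    intro k
    rw [mf_gr_cmp, hp, mf_pd3 hκd (hd 0) (hd 1) (hd 2)]
  have hm : ∀ k, (MF κ q w y) k = (pd 0 κ y * w 0 + pd 1 κ y * w 1 + pd 2 κ y * w 2) * pd k q y
      - (pd 0 κ y * pd 0 q y + pd 1 κ y * pd 1 q y + pd 2 κ y * pd 2 q y) * w k
      - (pd 0 q y * w 0 + pd 1 q y * w 1 + pd 2 q y * w 2) * pd k κ y := by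
    intro k
    unfold MF
    rw [mf_inner (gr κ y) w, mf_inner (gr κ y) (gr q y), mf_inner (gr q y) w]
    simp only [PiLp.sub_apply, PiLp.smul_apply, smul_eq_mul, mf_gr_cmp]
  have hc : curl F y = !₂[pd 1 (fun z => (F z) 2) y - pd 2 (fun z => (F z) 1) y,
      pd 2 (fun z => (F z) 0) y - pd 0 (fun z => (F z) 2) y,
      pd 0 (fun z => (F z) 1) y - pd 1 (fun z => (F z) 0) y] := by
    unfold curl
    rw [mf_fd hFd, mf_fd hFd, mf_fd hFd, mf_fd hFd, mf_fd hFd, mf_fd hFd]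
  rw [hF0, hF1, hF2] at hc
  have e1 := hsym 0 1
  have e2 := hsym 0 2
  have e3 := hsym 1 2
  rw [hc, Fin.sum_univ_three]
  ext k
  fin_cases k
  · show (pd 1 (fun z => κ z * (pd 0 q z * w 1 - pd 1 q z * w 0)) y
        - pd 2 (fun z => κ z * (pd 2 q z * w 0 - pd 0 q z * w 2)) y) - (gr (fun z => κ z * ⟪gr q z, w⟫) y) 0
      = (MF κ q w y) 0 - (κ y * (pd 0 (pd 0 q) y + pd 1 (pd 1 q) y + pd 2 (pd 2 q) y)) * w 0
    rw [mf_pdm hκd (hd 0) (hd 1), mf_pdm hκd (hd 2) (hd 0), hgp, hm, e1, e2]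
    ring
  · show (pd 2 (fun z => κ z * (pd 1 q z * w 2 - pd 2 q z * w 1)) y
        - pd 0 (fun z => κ z * (pd 0 q z * w 1 - pd 1 q z * w 0)) y) - (gr (fun z => κ z * ⟪gr q z, w⟫) y) 1
      = (MF κ q w y) 1 - (κ y * (pd 0 (pd 0 q) y + pd 1 (pd 1 q) y + pd 2 (pd 2 q) y)) * w 1
    rw [mf_pdm hκd (hd 1) (hd 2), mf_pdm hκd (hd 0) (hd 1), hgp, hm, e1, e3]
    ring
  · show (pd 0 (fun z => κ z * (pd 2 q z * w 0 - pd 0 q z * w 2)) y
        - pd 1 (fun z => κ z * (pd 1 q z * w 2 - pd 2 q z * w 1)) y) - (gr (fun z => κ z * ⟪gr q z, w⟫) y) 2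
      = (MF κ q w y) 2 - (κ y * (pd 0 (pd 0 q) y + pd 1 (pd 1 q) y + pd 2 (pd 2 q) y)) * w 2
    rw [mf_pdm hκd (hd 2) (hd 0), mf_pdm hκd (hd 1) (hd 2), hgp, hm, e2, e3]
    ring

end Pool.Agent.H65.APS
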