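import Mathlib
import Pool.Agent.H70.APS.Targets
import Pool.Agent.H58.IC.NWT

/-!
# Module S_NPT: Newton potentials
-/

open MeasureTheory Set Filter Topology Metric
open scoped ENNReal NNReal ContDiff RealInnerProductSpace Convolution

namespace Pool.Agent.H65.APS

open Pool.Agent.H94.IC Pool.Agent.H94.AC Pool.Agent.H92.CK Pool.Agent.H65.AP Pool.Agent.H70.APS

/-- the Newton kernel -/
noncomputable def nk (t : E) : ℝ := ‖t‖⁻¹

theorem nk_loc : LocallyIntegrable nk (volume : Measure E) := by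
  rw [locallyIntegrable_iff]
  intro K hK
  obtain ⟨R, hR⟩ := hK.isBounded.subset_closedBall (0 : E)
  exact (Pool.Agent.H58.IC.int_inv_norm R).mono_set hR

theorem npt_conv (θ : E → ℝ) : npt θ = (nk ⋆[ContinuousLinearMap.lsmul ℝ ℝ, (volume : Measure E)] θ) := by
  funext y
  unfold npt convolution
  rw [← integral_sub_left_eq_self (fun z => θ z * ‖z - y‖⁻¹) volume y]
  refine integral_congr_ae (Eventually.of_forall fun t => ?_)
  simp only [nk, ContinuousLinearMap.lsmul_apply, smul_eq_mul]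
  rw [sub_sub_cancel_left, norm_neg, mul_comm]

theorem npt_smooth {θ : E → ℝ} (h : ContDiff ℝ ∞ θ) (hs : HasCompactSupport θ) : ContDiff ℝ ∞ (npt θ) := by
  rw [npt_conv]
  exact hs.contDiff_convolution_right _ nk_loc h

theorem npt_pd {θ : E → ℝ} (h : ContDiff ℝ ∞ θ) (hs : HasCompactSupport θ) (j : Fin 3) :
    pd j (npt θ) = npt (pd j θ) := by
  funext y
  have h1 := hs.hasFDerivAt_convolution_right (ContinuousLinearMap.lsmul ℝ ℝ) nk_loc
    (h.of_le (by exact_mod_cast le_top)) y
  rw [← npt_conv] at h1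
  unfold pd
  rw [h1.fderiv, convolution_precompR_apply _ nk_loc (hs.fderiv (𝕜 := ℝ)) (h.continuous_fderiv (by simp)), npt_conv]

theorem npt_int {θ : E → ℝ} (h : Continuous θ) (hs : HasCompactSupport θ) (y : E) :
    Integrable fun z => θ z * ‖z - y‖⁻¹ := by
  have h1 : Integrable fun u => θ (y + u) * ‖u‖⁻¹ :=
    Pool.Agent.H58.IC.int_div_norm (h.comp (continuous_const.add continuous_id))
      (hs.comp_homeomorph (Homeomorph.addLeft y))
  have h2 := h1.comp_sub_right y
  simpa using h2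

/-- the gradient of the kernel -/
noncomputable def gk (z y : E) : E := (‖z - y‖⁻¹) ^ 3 • (z - y)

theorem gk_norm {z y : E} (h : z ≠ y) : ‖gk z y‖ = (‖z - y‖⁻¹) ^ 2 := by
  have h1 : ‖z - y‖ ≠ 0 := norm_ne_zero_iff.2 (sub_ne_zero.2 h)
  unfold gk
  rw [norm_smul, norm_pow, norm_inv, norm_norm]
  field_simp

theorem gk_deriv {z y : E} (h : z ≠ y) : HasFDerivAt (fun y' => ‖z - y'‖⁻¹) (innerSL ℝ (gk z y)) y := by
  have h1 : ‖z - y‖ ≠ 0 := norm_ne_zero_iff.2 (sub_ne_zero.2 h)
  have h2 : HasFDerivAt (fun y' : E => z - y') (-(ContinuousLinearMap.id ℝ E)) y := (hasFDerivAt_id y).const_sub z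
  have h3 : HasFDerivAt (fun y' : E => ‖z - y'‖ ^ 2) _ y := h2.norm_sq
  have h4 := h3.sqrt (by positivity)
  have h5 : (fun y' : E => Real.sqrt (‖z - y'‖ ^ 2)) = fun y' => ‖z - y'‖ := by
    funext y'
    exact Real.sqrt_sq (norm_nonneg _)
  rw [h5, Real.sqrt_sq (norm_nonneg _)] at h4
  have h6 := (hasDerivAt_inv h1).comp_hasFDerivAt y h4
  refine h6.congr_fderiv ?_
  ext w
  simp only [gk, smul_apply, ContinuousLinearMap.comp_apply, neg_apply,
    innerSL_apply_apply, smul_eq_mul, real_inner_smul_left, ContinuousLinearMap.id_apply, inner_neg_right,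
    nsmul_eq_mul]
  push_cast
  field_simp

theorem gk_gr {z y : E} (h : z ≠ y) : gr (fun y' => ‖z - y'‖⁻¹) y = gk z y := by
  refine ext_inner_right ℝ fun w => ?_
  unfold gr gradient
  rw [InnerProductSpace.toDual_symm_apply, (gk_deriv h).fderiv, innerSL_apply_apply]

theorem gk_meas (y : E) : Measurable fun z => gk z y := by
  unfold gk
  have h1 : Measurable fun z : E => z - y := measurable_id.sub_const y
  exact (h1.norm.inv.pow_const 3).smul h1

theorem npt_gr {θ : E → ℝ} (h : ContDiff ℝ ∞ θ) (hs : HasCompactSupport θ) {y : E} (hy : y ∉ tsupport θ) :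
    Integrable (fun z => θ z • gk z y) ∧ gr (npt θ) y = ∫ z, θ z • gk z y := by
  obtain ⟨r, hr, hd⟩ : ∃ r > 0, ∀ z ∈ tsupport θ, ∀ y' ∈ ball y r, r ≤ ‖z - y'‖ := by
    obtain ⟨δ, hδ, hb⟩ := Metric.isOpen_iff.1 (isClosed_tsupport θ).isOpen_compl y hy
    refine ⟨δ / 2, by positivity, fun z hz y' hy' => ?_⟩
    by_contra hlt
    push Not at hlt
    refine hb (?_ : z ∈ ball y δ) hz
    rw [mem_ball, dist_eq_norm] at hy' ⊢
    calc ‖z - y‖ = ‖(z - y') + (y' - y)‖ := by rw [sub_add_sub_cancel]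
      _ ≤ ‖z - y'‖ + ‖y' - y‖ := norm_add_le _ _
      _ < δ := by linarith
  have hθi : Integrable θ := h.continuous.integrable_of_hasCompactSupport hs
  have hb : ∀ z, ∀ y' ∈ ball y r, ‖θ z • gk z y'‖ ≤ ‖θ z‖ * (r⁻¹) ^ 2 := by
    intro z y' hy'
    by_cases hz : z ∈ tsupport θ
    · have h1 := hd z hz y' hy'
      have h2 : z ≠ y' := by
        rintro rfl
        rw [sub_self, norm_zero] at h1
        linarith
      rw [norm_smul, gk_norm h2]
      gcongr
    · rw [image_eq_zero_of_notMem_tsupport hz, zero_smul, norm_zero]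
      positivity
  have hm : ∀ y', AEStronglyMeasurable (fun z => θ z • gk z y') volume := fun y' =>
    (h.continuous.measurable.smul (gk_meas y')).aestronglyMeasurable
  have hI : Integrable (fun z => θ z • gk z y) :=
    (hθi.norm.mul_const ((r⁻¹) ^ 2)).mono' (hm y) (Eventually.of_forall fun z => hb z y (mem_ball_self hr))
  refine ⟨hI, ?_⟩
  have key : HasFDerivAt (fun y' => ∫ z, θ z * ‖z - y'‖⁻¹) (∫ z, innerSL ℝ (θ z • gk z y)) y := by
    refine hasFDerivAt_integral_of_dominated_of_fderiv_le (𝕜 := ℝ) (F := fun y' z => θ z * ‖z - y'‖⁻¹)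
      (F' := fun y' z => innerSL ℝ (θ z • gk z y')) (bound := fun z => ‖θ z‖ * (r⁻¹) ^ 2)
      (ball_mem_nhds y hr) ?_ ?_ ?_ ?_ ?_ ?_
    · exact Eventually.of_forall fun y' => (npt_int h.continuous hs y').aestronglyMeasurable
    · exact npt_int h.continuous hs y
    · exact (innerSL ℝ : E →L⋆[ℝ] E →L[ℝ] ℝ).continuous.comp_aestronglyMeasurable (hm y)
    · refine Eventually.of_forall fun z y' hy' => ?_
      rw [innerSL_apply_norm]
      exact hb z y' hy'
    · exact hθi.norm.mul_const _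
    · refine Eventually.of_forall fun z y' hy' => ?_
      by_cases hz : z ∈ tsupport θ
      · have h1 := hd z hz y' hy'
        have h2 : z ≠ y' := by
          rintro rfl
          rw [sub_self, norm_zero] at h1
          linarith
        have h3 := (gk_deriv h2).const_mul (θ z)
        refine h3.congr_fderiv ?_
        ext w
        simp
      · have h1 : θ z = 0 := image_eq_zero_of_notMem_tsupport hz
        simp only [h1, zero_mul, zero_smul, map_zero]
        exact hasFDerivAt_const _ _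
  refine ext_inner_right ℝ fun w => ?_
  have h2 : ⟪gr (npt θ) y, w⟫ = fderiv ℝ (npt θ) y w := by
    unfold gr gradient
    rw [InnerProductSpace.toDual_symm_apply]
  have h3 : fderiv ℝ (npt θ) y = ∫ z, innerSL ℝ (θ z • gk z y) := key.fderiv
  have hI2 : Integrable (fun z => innerSL ℝ (θ z • gk z y)) := by
    refine hI.norm.mono' ((innerSL ℝ : E →L⋆[ℝ] E →L[ℝ] ℝ).continuous.comp_aestronglyMeasurable (hm y))
      (Eventually.of_forall fun z => ?_)
    rw [innerSL_apply_norm]
  rw [h2, h3, ContinuousLinearMap.integral_apply hI2]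
  simp only [innerSL_apply_apply]
  simp only [real_inner_comm w]
  exact integral_inner hI w

theorem pf_NPT (hNWT : T_NWT) : T_NPT := by
  intro θ h hs
  have hpd : ∀ {f : E → ℝ}, ContDiff ℝ ∞ f → ∀ k, ContDiff ℝ ∞ (pd k f) := fun hf k =>
    Pool.Agent.H58.IC.pd_smooth hf k
  have hps : ∀ {f : E → ℝ}, HasCompactSupport f → ∀ k, HasCompactSupport (pd k f) := fun hf k =>
    Pool.Agent.H58.IC.pd_supp hf k
  have hG : ∀ y, y ∉ tsupport θ → gr (npt θ) y = ∫ z, θ z • gk z y := fun y hy => (npt_gr h hs hy).2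
  refine ⟨npt_smooth h hs, fun y => ?_, fun y hy => ?_, ?_⟩
  · have h1 : ∀ j, pd j (pd j (npt θ)) y = ∫ z, pd j (pd j θ) z * ‖z - y‖⁻¹ := by
      intro j
      rw [npt_pd h hs, npt_pd (hpd h j) (hps hs j)]
      rfl
    simp only [h1]
    rw [← integral_finsetSum _ fun j _ => npt_int (hpd (hpd h j) j).continuous (hps (hps hs j) j) y]
    have h2 := (hNWT θ h hs y).2
    have h3 : ∫ z, ∑ j : Fin 3, pd j (pd j θ) z * ‖z - y‖⁻¹ = ∫ z, (∑ k : Fin 3, pd k (pd k θ) z) / ‖y - z‖ := by
      refine integral_congr_ae (Eventually.of_forall fun z => ?_)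
      simp only
      rw [← Finset.sum_mul, norm_sub_rev, div_eq_mul_inv]
    rw [h3, h2]
    have := Real.pi_pos
    field_simp
  · rw [hG y hy]
    refine integral_congr_ae (Eventually.of_forall fun z => ?_)
    simp only
    by_cases hz : z ∈ tsupport θ
    · have h2 : z ≠ y := by
        rintro rfl
        exact hy hz
      rw [gk_gr h2]
    · rw [image_eq_zero_of_notMem_tsupport hz, zero_smul, zero_smul]
  · obtain ⟨R0, hR0⟩ := hs.isCompact.isBounded.subset_closedBall (0 : E)
    set R : ℝ := max R0 1 with hRdef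
    have hR1 : 1 ≤ R := le_max_right _ _
    have hR : ∀ z ∈ tsupport θ, ‖z‖ ≤ R := fun z hz => by
      have := hR0 hz
      rw [mem_closedBall, dist_zero_right] at this
      exact this.trans (le_max_left _ _)
    have hc : Continuous (gr (npt θ)) := by
      have h1 : ContDiff ℝ ∞ (fderiv ℝ (npt θ)) := (npt_smooth h hs).fderiv_right (m := ∞) (by simp)
      exact ((InnerProductSpace.toDual ℝ E).symm.continuous).comp h1.continuous
    obtain ⟨M, hM⟩ := (isCompact_closedBall (0 : E) (2 * R)).exists_bound_of_continuousOn hc.continuousOn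
    have hM0 : 0 ≤ M := (norm_nonneg _).trans (hM 0 (mem_closedBall_self (by linarith)))
    set A : ℝ := ∫ z, ‖θ z‖ with hA
    have hA0 : 0 ≤ A := integral_nonneg fun z => norm_nonneg _
    refine ⟨M * (1 + 2 * R) ^ 2 + 16 * A, fun y => ?_⟩
    have hp : 0 < (1 + ‖y‖) ^ 2 := by positivity
    rw [le_div_iff₀ hp]
    rcases le_or_gt ‖y‖ (2 * R) with hy | hy
    · have h1 : ‖gr (npt θ) y‖ ≤ M := hM y (by rwa [mem_closedBall, dist_zero_right])
      have h2 : (1 + ‖y‖) ^ 2 ≤ (1 + 2 * R) ^ 2 := by gcongr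
      calc ‖gr (npt θ) y‖ * (1 + ‖y‖) ^ 2 ≤ M * (1 + 2 * R) ^ 2 := by gcongr
        _ ≤ M * (1 + 2 * R) ^ 2 + 16 * A := by linarith
    · have hyn : y ∉ tsupport θ := fun hmem => by
        have := hR y hmem
        linarith
      have hθi : Integrable θ := h.continuous.integrable_of_hasCompactSupport hs
      have hy0 : 0 < ‖y‖ := by linarith
      have h1 : ‖gr (npt θ) y‖ ≤ A * (2 * ‖y‖⁻¹) ^ 2 := by
        rw [hG y hyn]
        calc ‖∫ z, θ z • gk z y‖ ≤ ∫ z, ‖θ z‖ * (2 * ‖y‖⁻¹) ^ 2 := by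
              refine norm_integral_le_of_norm_le (hθi.norm.mul_const _) (Eventually.of_forall fun z => ?_)
              by_cases hz : z ∈ tsupport θ
              · have h2 : z ≠ y := by
                  rintro rfl
                  exact hyn hz
                rw [norm_smul, gk_norm h2]
                have h3 : ‖y‖ / 2 ≤ ‖z - y‖ := by
                  have h4 : ‖y‖ - ‖z‖ ≤ ‖y - z‖ := norm_sub_norm_le _ _
                  rw [norm_sub_rev] at h4
                  have := hR z hz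
                  linarith
                have h5 : ‖z - y‖⁻¹ ≤ 2 * ‖y‖⁻¹ := by
                  have h6 : (‖y‖ / 2)⁻¹ = 2 * ‖y‖⁻¹ := by
                    rw [inv_div, div_eq_mul_inv]
                  rw [← h6]
                  exact inv_anti₀ (by positivity) h3
                gcongr
              · rw [image_eq_zero_of_notMem_tsupport hz, zero_smul, norm_zero]
                positivity
          _ = A * (2 * ‖y‖⁻¹) ^ 2 := by rw [integral_mul_const]
      have h2 : (2 * ‖y‖⁻¹) ^ 2 * (1 + ‖y‖) ^ 2 ≤ 16 := by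
        have h3 : (2 * ‖y‖⁻¹) * (1 + ‖y‖) ≤ 4 := by
          have h4 : ‖y‖⁻¹ ≤ 1 := inv_le_one_of_one_le₀ (by linarith)
          have h5 : ‖y‖⁻¹ * ‖y‖ = 1 := inv_mul_cancel₀ hy0.ne'
          nlinarith
        have h6 : 0 ≤ (2 * ‖y‖⁻¹) * (1 + ‖y‖) := by positivity
        calc (2 * ‖y‖⁻¹) ^ 2 * (1 + ‖y‖) ^ 2 = ((2 * ‖y‖⁻¹) * (1 + ‖y‖)) ^ 2 := by ring
          _ ≤ 4 ^ 2 := by gcongr
          _ = 16 := by norm_num
      calc ‖gr (npt θ) y‖ * (1 + ‖y‖) ^ 2 ≤ (A * (2 * ‖y‖⁻¹) ^ 2) * (1 + ‖y‖) ^ 2 := by gcongr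
        _ = A * ((2 * ‖y‖⁻¹) ^ 2 * (1 + ‖y‖) ^ 2) := by ring
        _ ≤ A * 16 := by gcongr
        _ ≤ M * (1 + 2 * R) ^ 2 + 16 * A := by
            have : 0 ≤ M * (1 + 2 * R) ^ 2 := by positivity
            linarith

end Pool.Agent.H65.APS
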