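import Mathlib
import Pool.Agent.H70.APS.Targets

/-!
# Module S_PRS: projection on the gradients
-/

open MeasureTheory Set Filter Topology Metric
open scoped ENNReal NNReal ContDiff RealInnerProductSpace

namespace Pool.Agent.H65.APS

open Pool.Agent.H94.IC Pool.Agent.H94.AC Pool.Agent.H92.CK Pool.Agent.H65.AP Pool.Agent.H70.APS

theorem hs1_congr {Ω S : Set E} {σ : Measure E} {ν : E → E} {φ κ : E → ℝ} {G G' : E → E}
    (h : HS1 Ω S σ ν φ G κ) (he : G =ᵐ[volume.restrict Ω] G') : HS1 Ω S σ ν φ G' κ := by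
  refine ⟨h.u2, h.F2.ae_eq he, h.t2, fun X h1 h2 h3 => ?_⟩
  rw [← h.tr X h1 h2 h3]
  refine integral_congr_ae ?_
  filter_upwards [he] with x hx
  rw [hx]

theorem pf_PRS (hHSM : T_HSM) (hMVB : Pool.Agent.H65.AP.T_MVB) (hCRL : Pool.Agent.H65.AP.T_CRL) :
    Pool.Agent.H70.APS.T_PRS := by
  intro Ω S σ ν ρ x v hD hσ hSc hSΩ hS0 hρ hball
  obtain ⟨hadd, hmul, -, hsmooth, -⟩ := hHSM Ω S σ ν hD.op hD.bdd hσ hSc hSΩ
  have hfin : IsFiniteMeasure (volume.restrict Ω) :=
    ⟨by rw [Measure.restrict_apply_univ]; exact hD.bdd.measure_lt_top⟩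
  -- the submodule of the gradients
  let GG : Submodule ℝ (Lp E 2 (volume.restrict Ω)) :=
    { carrier := {g | ∃ φ κ, HS1 Ω S σ ν φ (g : E → E) κ}
      zero_mem' := by
        have h1 := hsmooth (fun _ => 0) contDiff_const
        refine ⟨_, _, hs1_congr h1 ?_⟩
        filter_upwards [Lp.coeFn_zero E 2 (volume.restrict Ω)] with y hy
        rw [hy]
        simp [gr, gradient_fun_const]
      add_mem' := by
        rintro a b ⟨φ, κ, h1⟩ ⟨φ', κ', h2⟩
        refine ⟨_, _, hs1_congr (hadd _ _ _ _ _ _ h1 h2) ?_⟩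
        filter_upwards [Lp.coeFn_add a b] with y hy
        rw [hy]; rfl
      smul_mem' := by
        rintro c a ⟨φ, κ, h1⟩
        refine ⟨_, _, hs1_congr (hmul _ _ _ c h1) ?_⟩
        filter_upwards [Lp.coeFn_smul c a] with y hy
        rw [hy]; rfl }
  have hcomp : CompleteSpace GG.topologicalClosure :=
    (Submodule.isClosed_topologicalClosure GG).completeSpace_coe
  -- members
  have hmem : ∀ (φ κ : E → ℝ) (G : E → E) (h1 : HS1 Ω S σ ν φ G κ), h1.F2.toLp G ∈ GG := by
    intro φ κ G h1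
    exact ⟨φ, κ, hs1_congr h1 h1.F2.coeFn_toLp.symm⟩
  have hGK : ∀ g ∈ GG, g ∈ GG.topologicalClosure := fun g hg => GG.le_topologicalClosure hg
  -- inner products
  have hin : ∀ f g : Lp E 2 (volume.restrict Ω), ⟪f, g⟫ = ∫ y in Ω, ⟪f y, g y⟫ := fun f g => L2.inner_def f g
  have hin2 : ∀ (f : Lp E 2 (volume.restrict Ω)) (G : E → E) (hG : MemLp G 2 (volume.restrict Ω)),
      ⟪f, hG.toLp G⟫ = ∫ y in Ω, ⟪f y, G y⟫ := by
    intro f G hG
    rw [hin]
    refine integral_congr_ae ?_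
    filter_upwards [hG.coeFn_toLp] with y hy
    rw [hy]
  -- closure
  have hclos : ∀ c : Lp E 2 (volume.restrict Ω), (∀ g ∈ GG, ⟪g, c⟫ = 0) →
      ∀ g ∈ GG.topologicalClosure, ⟪g, c⟫ = 0 := by
    intro c hc g hg
    have hcl : IsClosed {g : Lp E 2 (volume.restrict Ω) | ⟪g, c⟫ = (0 : ℝ)} :=
      isClosed_eq (continuous_id.inner continuous_const) continuous_const
    have : (GG : Set (Lp E 2 (volume.restrict Ω))) ⊆ {g | ⟪g, c⟫ = (0 : ℝ)} := fun g hg => hc g hg
    exact closure_minimal this hcl hg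
  -- the field to be projected
  have hbΩ : ball x ρ ⊆ Ω := fun y hy => (hball (ball_subset_closedBall hy)).1
  have hg0 : MemLp (indicator (ball x ρ) fun _ => v) 2 (volume.restrict Ω) :=
    (memLp_const v).indicator measurableSet_ball
  obtain ⟨p, hp, z, hz, hpz⟩ := GG.topologicalClosure.exists_add_mem_mem_orthogonal (hg0.toLp _)
  have hzz : ∀ g ∈ GG.topologicalClosure, ⟪z, g⟫ = (0 : ℝ) := fun g hg => by
    rw [real_inner_comm]; exact (Submodule.mem_orthogonal _ _).1 hz g hg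
  have hg0in : ∀ (G : E → E), ∫ y in Ω, ⟪(indicator (ball x ρ) fun _ => v) y, G y⟫ = ∫ y in ball x ρ, ⟪v, G y⟫ := by
    intro G
    have h1 : (fun y => ⟪(indicator (ball x ρ) fun _ => v) y, G y⟫) =
        indicator (ball x ρ) (fun y => ⟪v, G y⟫) := by
      funext y
      by_cases hy : y ∈ ball x ρ
      · rw [indicator_of_mem hy, indicator_of_mem hy]
      · rw [indicator_of_notMem hy, indicator_of_notMem hy, inner_zero_left]
    rw [h1, setIntegral_indicator measurableSet_ball, inter_eq_self_of_subset_right hbΩ]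
  have hg0in2 : ∀ (G : E → E) (hG : MemLp G 2 (volume.restrict Ω)),
      ⟪hg0.toLp _, hG.toLp G⟫ = ∫ y in ball x ρ, ⟪v, G y⟫ := by
    intro G hG
    rw [hin2, ← hg0in G]
    refine integral_congr_ae ?_
    filter_upwards [hg0.coeFn_toLp] with y hy
    rw [hy]
  -- smooth fields
  have hsm : ∀ B : E → E, ContDiff ℝ ∞ B → HasCompactSupport B → MemLp (curl B) 2 (volume.restrict Ω) := by
    intro B hB hBc
    obtain ⟨h1, h2, -⟩ := hCRL.1 B hB
    have h3 : HasCompactSupport (curl B) := hBc.of_isClosed_subset isClosed_closure h2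
    exact (h1.continuous.memLp_of_hasCompactSupport h3)
  refine ⟨p, Lp.memLp p, ?_, ?_, ?_, ?_⟩
  · -- the norm
    have h1 : ∫ y in Ω, ‖p y‖ ^ 2 = ⟪p, p⟫ := by
      rw [hin]
      refine integral_congr_ae (ae_of_all _ fun y => ?_)
      simp only [real_inner_self_eq_norm_sq]
    have h2 : (volume (ball x ρ)).toReal * ‖v‖ ^ 2 = ⟪hg0.toLp _, hg0.toLp _⟫ := by
      rw [hg0in2]
      have h3 : ∫ y in ball x ρ, ⟪v, (indicator (ball x ρ) fun _ => v) y⟫ = ∫ y in ball x ρ, ‖v‖ ^ 2 := by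
        refine setIntegral_congr_fun measurableSet_ball fun y hy => ?_
        simp only [indicator_of_mem hy, real_inner_self_eq_norm_sq]
      rw [h3, setIntegral_const, smul_eq_mul]
      rfl
    have h4 : ⟪hg0.toLp _, hg0.toLp _⟫ = ⟪p, p⟫ + ⟪z, z⟫ := by
      rw [hpz, inner_add_left, inner_add_right, inner_add_right, hzz p hp, real_inner_comm z p, hzz p hp]
      ring
    rw [h1, h2, h4]
    have := real_inner_self_nonneg (x := z)
    linarith
  · -- gradients
    intro φ hφ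
    have h1 : HS1 Ω S σ ν φ (gr φ) φ := hsmooth φ hφ
    have h6 : h1.F2.toLp _ ∈ GG.topologicalClosure := hGK _ (hmem _ _ _ h1)
    rw [← hin2 p _ h1.F2]
    have h5 : p = hg0.toLp _ - z := by rw [hpz]; abel
    rw [h5, inner_sub_left, hzz _ h6, sub_zero, hg0in2]
  · -- curls
    intro B hB hBc hBs
    have hc := hsm B hB hBc
    obtain ⟨c1, c2, c3⟩ := hCRL.1 B hB
    rw [← hin2 p _ hc]
    refine hclos _ ?_ p hp
    rintro g ⟨φ, κ, hg⟩
    rw [hin2]
    have hcc : HasCompactSupport (curl B) := hBc.of_isClosed_subset isClosed_closure c2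
    have h2 := hg.tr (curl B) c1 hcc (by
      rw [Set.disjoint_left]
      intro y hy hyS
      exact (hBs (c2 hy)).2 hyS)
    have h3 : ∫ y, κ y * ⟪curl B y, ν y⟫ ∂σ = 0 := by
      refine integral_eq_zero_of_ae ?_
      have h4 : ∀ᵐ y ∂σ, y ∈ frontier Ω := by
        rw [ae_iff]
        exact hσ.supp
      filter_upwards [h4] with y hy
      have h5 : curl B y = 0 := by
        by_contra h6
        have h7 : y ∈ Ω := (hBs (c2 (subset_tsupport _ h6))).1
        have h8 : y ∈ Ω ∩ frontier Ω := ⟨h7, hy⟩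
        rw [hD.op.inter_frontier_eq] at h8
        exact h8
      simp [h5]
    rw [h3] at h2
    rw [← h2]
    refine integral_congr_ae (ae_of_all _ fun y => ?_)
    simp only [c3 y, mul_zero, zero_add]
  · -- test fields with vanishing gradient
    intro A h τ hA hAc hAs hh hsol hv
    have hc := hsm A hA hAc
    obtain ⟨c1, c2, c3⟩ := hCRL.1 A hA
    have hf : HS1 Ω S σ ν h (gr h) τ := hsol.h
    rw [← hin2 p _ hc]
    have h1 : ∀ g ∈ GG, ⟪g, hf.F2.toLp _ - hc.toLp _⟫ = (0 : ℝ) := by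
      rintro g ⟨φ, κ, hg⟩
      have h2 := hsol.weak φ g κ hg
      have hcc : HasCompactSupport (curl A) := hAc.of_isClosed_subset isClosed_closure c2
      have h3 := hg.tr (curl A) c1 hcc (by
        rw [Set.disjoint_left]
        intro y hy hyS
        exact hAs (c2 hy) hyS)
      rw [inner_sub_right, hin2, hin2, sub_eq_zero]
      have e1 : ∫ y in Ω, ⟪g y, gr h y⟫ = ∫ y in Ω, ⟪gr h y, g y⟫ :=
        integral_congr_ae (ae_of_all _ fun y => real_inner_comm _ _)
      have e2 : ∫ y in Ω, ⟪g y, curl A y⟫ = ∫ y in Ω, (φ y * dv (curl A) y + ⟪g y, curl A y⟫) :=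
        integral_congr_ae (ae_of_all _ fun y => by simp only [c3 y, mul_zero, zero_add])
      rw [e1, e2, h2, h3]
      exact integral_congr_ae (ae_of_all _ fun y => mul_comm _ _)
    have h4 := hclos _ h1 p hp
    rw [inner_sub_right, sub_eq_zero] at h4
    rw [← h4]
    have h5 : p = hg0.toLp _ - z := by rw [hpz]; abel
    have h6 : hf.F2.toLp _ ∈ GG.topologicalClosure := hGK _ (hmem _ _ _ hf)
    rw [h5, inner_sub_left, hzz _ h6, sub_zero, hg0in2,
      hMVB (Ω \ S) h x v ρ (hD.op.sdiff hSc.isClosed) hh hρ hball, real_inner_comm, hv, mul_zero]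

end Pool.Agent.H65.APS
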