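import Mathlib
import Pool.Agent.H70.APS.Targets

/-!
# Module S_SMU: the moment identity for the projected field
-/

open MeasureTheory Set Filter Topology Metric
open scoped ENNReal NNReal ContDiff RealInnerProductSpace

namespace Pool.Agent.H65.APS

open Pool.Agent.H94.IC Pool.Agent.H94.AC Pool.Agent.H92.CK Pool.Agent.H65.AP Pool.Agent.H70.APS

theorem curl_congr {A B : E → E} {y : E} (h : A =ᶠ[𝓝 y] B) : curl A y = curl B y := by
  unfold curl
  rw [h.fderiv_eq]

theorem gr_congr {f g : E → ℝ} {y : E} (h : f =ᶠ[𝓝 y] g) : gr f y = gr g y := by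
  unfold gr gradient
  rw [h.fderiv_eq]

theorem gr_const' (c : ℝ) (y : E) : gr (fun _ : E => c) y = 0 := gradient_fun_const y c

theorem contDiff_gr {f : E → ℝ} (h : ContDiff ℝ ∞ f) : ContDiff ℝ ∞ (gr f) := by
  have h1 : ContDiff ℝ ∞ (fderiv ℝ f) := h.fderiv_right (m := ∞) (by simp)
  exact ((InnerProductSpace.toDual ℝ E).symm.toContinuousLinearEquiv.contDiff).comp h1

theorem contDiff_crl {f : E → E} (h : ContDiff ℝ ∞ f) (w : E) : ContDiff ℝ ∞ fun z => cr (f z) w := by
  have hc : ∀ k : Fin 3, ContDiff ℝ ∞ fun z => (f z) k := fun k => contDiff_euclidean.1 h k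
  refine contDiff_euclidean.2 fun i => ?_
  fin_cases i
  · show ContDiff ℝ ∞ fun z => (f z) 1 * w 2 - (f z) 2 * w 1
    exact ((hc 1).mul contDiff_const).sub ((hc 2).mul contDiff_const)
  · show ContDiff ℝ ∞ fun z => (f z) 2 * w 0 - (f z) 0 * w 2
    exact ((hc 2).mul contDiff_const).sub ((hc 0).mul contDiff_const)
  · show ContDiff ℝ ∞ fun z => (f z) 0 * w 1 - (f z) 1 * w 0
    exact ((hc 0).mul contDiff_const).sub ((hc 1).mul contDiff_const)

theorem contDiff_curl {A : E → E} (h : ContDiff ℝ ∞ A) : ContDiff ℝ ∞ (curl A) := by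
  have h1 : ContDiff ℝ ∞ (fderiv ℝ A) := h.fderiv_right (m := ∞) (by simp)
  have hc : ∀ j k : Fin 3, ContDiff ℝ ∞ fun z => (fderiv ℝ A z (ev j)) k := fun j k =>
    contDiff_euclidean.1 (h1.clm_apply contDiff_const) k
  refine contDiff_euclidean.2 fun i => ?_
  fin_cases i
  · exact (hc 1 2).sub (hc 2 1)
  · exact (hc 2 0).sub (hc 0 2)
  · exact (hc 0 1).sub (hc 1 0)

theorem curl_zero {A : E → E} {y : E} (h : y ∉ tsupport A) : curl A y = 0 := by
  have h1 : A =ᶠ[𝓝 y] fun _ => 0 := notMem_tsupport_iff_eventuallyEq.1 h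
  rw [curl_congr h1]
  unfold curl
  ext i
  fin_cases i <;> simp

theorem curl_cpt {A : E → E} (h : HasCompactSupport A) : HasCompactSupport (curl A) := by
  refine HasCompactSupport.intro h fun y hy => curl_zero hy

theorem int_inner {μ : Measure E} {f g : E → E} (hf : MemLp f 2 μ) (hg : MemLp g 2 μ) :
    Integrable (fun x => ⟪f x, g x⟫) μ := by
  have h1 : Integrable (fun x => ‖f x‖ * ‖g x‖) μ := hf.norm.integrable_mul hg.norm
  refine h1.mono' (hf.1.inner hg.1) (ae_of_all _ fun x => ?_)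
  exact norm_inner_le_norm _ _

theorem pf_SMU (hLNC : T_LNC) (hMFI : T_MFI) (hPRP : T_PRP) : T_SMU := by
  intro Ω S σ ν ρ R ε a x v P D m b h τ κ hD hσ hSc hSΩ hS0 hρ hball hε hR hκ hSa hxa haΩ hb hspan hh hsol hv hP
    hgrad htest q w hq hpw
  have hRε : 0 < R * ε := mul_pos hR hε
  -- the cutoff
  set k : E → ℝ := fun z => κ (ε⁻¹ • (z - a)) with hk
  have hkc : ContDiff ℝ ∞ k := by
    have h1 : ContDiff ℝ ∞ fun z : E => ε⁻¹ • (z - a) := by fun_prop
    exact hκ.sm.comp h1
  have hk0 : ∀ z, ‖z - a‖ ≤ R * ε → k z = 0 := by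
    intro z hz
    refine hκ.zero _ ?_
    rw [norm_smul, norm_inv, Real.norm_of_nonneg hε.le, inv_mul_le_iff₀ hε, mul_comm]
    exact hz
  have hk1 : ∀ z, 2 * R * ε ≤ ‖z - a‖ → k z = 1 := by
    intro z hz
    refine hκ.one _ ?_
    rw [norm_smul, norm_inv, Real.norm_of_nonneg hε.le, inv_mul_eq_div, le_div_iff₀ hε]
    exact hz
  -- the outer cutoff
  obtain ⟨R1, hR1, hR1'⟩ : ∃ R1 : ℝ, 0 < R1 ∧ closure Ω ⊆ ball 0 R1 := by
    obtain ⟨R0, hR0⟩ := hD.bdd.isCompact_closure.isBounded.subset_closedBall 0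
    refine ⟨max R0 0 + 1, by positivity, fun z hz => ?_⟩
    have := mem_closedBall.1 (hR0 hz)
    rw [mem_ball]
    linarith [le_max_left R0 0]
  let χb : ContDiffBump (0 : E) := ⟨R1, R1 + 1, hR1, by linarith⟩
  set χ : E → ℝ := fun z => χb z with hχ
  have hχc : ContDiff ℝ ∞ χ := χb.contDiff
  have hχs : HasCompactSupport χ := χb.hasCompactSupport
  have hχ1 : ∀ z ∈ closure Ω, χ =ᶠ[𝓝 z] fun _ => 1 := by
    intro z hz
    filter_upwards [isOpen_ball.mem_nhds (hR1' hz)] with y hy
    exact χb.one_of_mem_closedBall (ball_subset_closedBall hy)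
  -- the harmonic function and its derivative
  have hqc : ContDiff ℝ ∞ q := contDiffOn_univ.1 hq.1
  have hgq : ContDiff ℝ ∞ (gr q) := contDiff_gr hqc
  set p : E → ℝ := fun y => ⟪gr q y, w⟫ with hp
  have hpc : ContDiff ℝ ∞ p := hgq.inner ℝ contDiff_const
  obtain ⟨c, hc⟩ := hspan p hpw
  have hbc : ∀ i, ContDiff ℝ ∞ (b i) := fun i => contDiffOn_univ.1 (hb i).harm.1
  have hgp : ∀ y, gr p y = ∑ i, c i • gr (b i) y := by
    intro y
    have h1 : p = fun y => ∑ i, c i * b i y := funext hc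
    have h2 : HasFDerivAt (fun y => ∑ i, c i * b i y) (∑ i, c i • fderiv ℝ (b i) y) y := by
      refine HasFDerivAt.fun_sum fun i _ => ?_
      exact (((hbc i).differentiable (by simp)) y).hasFDerivAt.const_mul (c i)
    rw [h1]
    unfold gr gradient
    rw [h2.fderiv, map_sum]
    refine Finset.sum_congr rfl fun i _ => ?_
    rw [map_smul]
  -- the field
  set A0 : E → E := fun z => k z • cr (gr q z) w with hA0
  have hA0c : ContDiff ℝ ∞ A0 := hkc.smul (contDiff_crl hgq w)
  set A : E → E := fun z => χ z • A0 z with hA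
  have hAc : ContDiff ℝ ∞ A := hχc.smul hA0c
  have hAs : HasCompactSupport A := by
    refine hχs.mono ?_
    intro y hy
    rw [Function.mem_support] at hy ⊢
    intro h0
    exact hy (by rw [hA]; simp only [h0, zero_smul])
  have hAS : tsupport A ⊆ Sᶜ := by
    have h1 : tsupport A ⊆ {z | R * ε ≤ ‖z - a‖} := by
      refine closure_minimal ?_ (isClosed_le continuous_const (by fun_prop))
      intro z hz
      rw [Function.mem_support] at hz
      show R * ε ≤ ‖z - a‖
      by_contra hlt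
      rw [not_le] at hlt
      exact hz (by rw [hA]; simp only [hA0, hk0 z hlt.le, zero_smul, smul_zero])
    intro z hz hzS
    have h2 := h1 hz
    have h3 := hSa hzS
    rw [mem_ball, dist_eq_norm] at h3
    exact absurd h2 (not_le.2 h3)
  have hAA0 : ∀ z ∈ closure Ω, A =ᶠ[𝓝 z] A0 := by
    intro z hz
    filter_upwards [hχ1 z hz] with y hy
    show χ y • A0 y = A0 y
    rw [hy, one_smul]
  -- the test function
  set φ0 : E → ℝ := fun z => k z * p z with hφ0
  have hφ0c : ContDiff ℝ ∞ φ0 := hkc.mul hpc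
  set φ : E → ℝ := fun z => χ z * φ0 z with hφ
  have hφc : ContDiff ℝ ∞ φ := hχc.mul hφ0c
  have hφs : HasCompactSupport φ := by
    refine hχs.mono ?_
    intro y hy
    rw [Function.mem_support] at hy ⊢
    intro h0
    exact hy (by rw [hφ]; simp only [h0, zero_mul])
  have hφφ0 : ∀ z ∈ closure Ω, φ =ᶠ[𝓝 z] φ0 := by
    intro z hz
    filter_upwards [hχ1 z hz] with y hy
    show χ y * φ0 y = φ0 y
    rw [hy, one_mul]
  -- the basic identity
  have hid : ∀ y, curl A0 y - gr φ0 y = MF k q w y := by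
    intro y
    have h1 := hMFI k q univ w y hkc isOpen_univ hq.1 (mem_univ y)
    rw [hq.2 y (mem_univ y), mul_zero, zero_smul, sub_zero] at h1
    exact h1
  -- the frontier
  have hfr : ∀ y ∈ frontier Ω, curl A y = gr p y := by
    intro y hy
    have hyc : y ∈ closure Ω := frontier_subset_closure hy
    have hyn : y ∉ Ω := by
      intro h1
      have : y ∈ Ω ∩ frontier Ω := ⟨h1, hy⟩
      rw [hD.op.inter_frontier_eq] at this
      exact this
    have h2 : 2 * R * ε < ‖y - a‖ := by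
      by_contra h3
      rw [not_lt, ← dist_eq_norm] at h3
      exact hyn (haΩ h3)
    have h4 : ∀ᶠ z in 𝓝 y, 2 * R * ε < ‖z - a‖ :=
      (isOpen_lt continuous_const (by fun_prop)).mem_nhds h2
    have h5 : k =ᶠ[𝓝 y] fun _ => 1 := by
      filter_upwards [h4] with z hz using hk1 z hz.le
    have h6 : gr k y = 0 := by rw [gr_congr h5]; exact gr_const' 1 y
    have h7 : φ0 =ᶠ[𝓝 y] p := by
      filter_upwards [h5] with z hz
      show k z * p z = p z
      rw [hz, one_mul]
    have h8 := hid y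
    have h9 : MF k q w y = 0 := by
      unfold MF
      rw [h6]
      simp
    rw [h9, sub_eq_zero] at h8
    rw [curl_congr (hAA0 y hyc), h8, gr_congr h7]
  -- the combined solution
  obtain ⟨l1, l2, l3⟩ := hLNC Ω S σ ν m (fun i y => ⟪gr (b i) y, ν y⟫) h τ c (fun y => ⟪curl A y, ν y⟫) hD hσ hSc
    hSΩ hS0 (fun i => (hPRP Ω σ ν (b i) hD hσ (hb i).harm).l2) hh hsol (fun y hy => by
      rw [hfr y hy, hgp y, sum_inner]
      refine Finset.sum_congr rfl fun i _ => ?_
      rw [real_inner_smul_left])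
  have hx : x ∈ Ω \ S := hball (mem_closedBall_self hρ.le)
  have hcA : ∫ y in Ω, ⟪P y, curl A y⟫ = 0 := by
    refine htest A _ _ hAc hAs hAS l1 l2 ?_
    rw [l3 x hx, sum_inner]
    refine Finset.sum_eq_zero fun i _ => ?_
    rw [real_inner_smul_left, hv i, mul_zero]
  have hcφ : ∫ y in Ω, ⟪P y, gr φ y⟫ = 0 := by
    rw [hgrad φ hφc]
    have h1 : ∀ y ∈ ball x ρ, ⟪v, gr φ y⟫ = (0 : ℝ) := by
      intro y hy
      have h2 : y ∈ ball a (R * ε) := hxa (ball_subset_closedBall hy)
      have h3 : φ =ᶠ[𝓝 y] fun _ => 0 := by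
        filter_upwards [isOpen_ball.mem_nhds h2] with z hz
        show χ z * (k z * p z) = 0
        rw [mem_ball, dist_eq_norm] at hz
        rw [hk0 z hz.le, zero_mul, mul_zero]
      rw [gr_congr h3, gr_const', inner_zero_right]
    rw [setIntegral_congr_fun measurableSet_ball h1]
    simp
  have hmA : MemLp (curl A) 2 (volume.restrict Ω) :=
    (contDiff_curl hAc).continuous.memLp_of_hasCompactSupport (curl_cpt hAs)
  have hmφ : MemLp (gr φ) 2 (volume.restrict Ω) := by
    refine (contDiff_gr hφc).continuous.memLp_of_hasCompactSupport ?_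
    refine HasCompactSupport.intro hφs fun y hy => ?_
    rw [gr_congr (notMem_tsupport_iff_eventuallyEq.1 hy)]
    exact gr_const' 0 y
  have hfin : ∫ y in Ω, ⟪P y, MF k q w y⟫ = ∫ y in Ω, (⟪P y, curl A y⟫ - ⟪P y, gr φ y⟫) := by
    refine setIntegral_congr_fun hD.op.measurableSet fun y hy => ?_
    have hyc : y ∈ closure Ω := subset_closure hy
    show ⟪P y, MF k q w y⟫ = ⟪P y, curl A y⟫ - ⟪P y, gr φ y⟫
    rw [← hid y, inner_sub_right, curl_congr (hAA0 y hyc), gr_congr (hφφ0 y hyc)]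
  rw [hfin, integral_sub (int_inner hP hmA) (int_inner hP hmφ), hcA, hcφ, sub_zero]

end Pool.Agent.H65.APS
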